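import Mathlib
import Pool.Agent.Y734.R.Stms2
import Pool.Agent.Y734.R.LOW.Main

/-!
# Project Y734/R, job LOWB: infinitely many integral points of degree at most `r` of `M_{0,4r-2}`

Plan of helper734, variant of the proof of helper232 (job LOW), by helper929.
-/

set_option autoImplicit false
set_option linter.unusedSectionVars false

namespace Pool.Agent.Y734.R.LOWB

open Pool.Agent.Y734.M Pool.Agent.Y734.R Polynomial
open Pool.Agent.Y734.R.LOW (su_of_mul su_prod su_nat Sr)

/-- an extension of degree at most the degree of `F` with a root of `F`, and an embedding which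
extends `ψ` -/
theorem exists_root' (k : Type) [Field k] [NumberField k] (ψ : k →+* ℂ) (F : k[X])
    (hF : F.Monic) (hd : 0 < F.natDegree) :
    ∃ (L : Type) (_ : Field L) (_ : NumberField L) (_ : Algebra k L)
      (x : L) (φ : L →+* ℂ), Module.finrank k L ≤ F.natDegree ∧ aeval x F = 0 ∧
        ∀ a : k, φ (algebraMap k L a) = ψ a := by
  have hF0 : F ≠ 0 := hF.ne_zero
  obtain ⟨g, hg, hgF⟩ := exists_irreducible_of_natDegree_pos hd
  have hfact : Fact (Irreducible g) := ⟨hg⟩
  have hfin : Module.Finite k (AdjoinRoot g) := (AdjoinRoot.powerBasis hg.ne_zero).finite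
  have hnf : NumberField (AdjoinRoot g) := NumberField.of_module_finite k (AdjoinRoot g)
  let _ := ψ.toAlgebra
  have hφ : ∃ φ : AdjoinRoot g →+* ℂ, ∀ a : k, φ (algebraMap k (AdjoinRoot g) a) = ψ a := by
    let φ : AdjoinRoot g →ₐ[k] ℂ := IsAlgClosed.lift
    exact ⟨φ, fun a => φ.commutes a⟩
  obtain ⟨φ, hφ⟩ := hφ
  refine ⟨AdjoinRoot g, inferInstance, hnf, inferInstance, AdjoinRoot.root g, φ, ?_, ?_, hφ⟩
  · rw [(AdjoinRoot.powerBasis hg.ne_zero).finrank, AdjoinRoot.powerBasis_dim]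
    exact natDegree_le_of_dvd hgF hF0
  · obtain ⟨q, hq⟩ := hgF
    have h1 : F.eval₂ (AdjoinRoot.of g) (AdjoinRoot.root g) = 0 := by
      rw [hq, eval₂_mul, AdjoinRoot.eval₂_root, zero_mul]
    rw [aeval_def, ← h1]
    congr 1

/-- the polynomial `T ∏ (T - z ^ i) - 2 ^ N ∏ (T - z ^ (r - 1 + j))` -/
noncomputable def pG {R : Type} [CommRing R] (r N : ℕ) (z : R) : R[X] :=
  X * ∏ i ∈ Finset.range (r - 1), (X - C (z ^ i)) -
    C (2 ^ N) * ∏ j ∈ Finset.range (r - 1), (X - C (z ^ (r - 1 + j)))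

theorem pG_deg {R : Type} [CommRing R] [Nontrivial R] {r : ℕ} (hr : 2 ≤ r) (N : ℕ) (z : R) :
    (pG r N z).Monic ∧ (pG r N z).natDegree = r := by
  have hA0 : (∏ i ∈ Finset.range (r - 1), (X - C (z ^ i)) : R[X]).Monic := monic_prod_X_sub_C _ _
  have hA : (X * ∏ i ∈ Finset.range (r - 1), (X - C (z ^ i)) : R[X]).Monic := monic_X.mul hA0
  have hAd : (X * ∏ i ∈ Finset.range (r - 1), (X - C (z ^ i)) : R[X]).natDegree = r := by
    rw [monic_X.natDegree_mul hA0, natDegree_X, natDegree_finsetProd_X_sub_C_eq_card,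
      Finset.card_range]
    omega
  have hB : (∏ j ∈ Finset.range (r - 1), (X - C (z ^ (r - 1 + j))) : R[X]).natDegree = r - 1 := by
    rw [natDegree_finsetProd_X_sub_C_eq_card, Finset.card_range]
  have hB' : (C (2 ^ N) * ∏ j ∈ Finset.range (r - 1), (X - C (z ^ (r - 1 + j))) :
      R[X]).natDegree < (X * ∏ i ∈ Finset.range (r - 1), (X - C (z ^ i)) : R[X]).natDegree := by
    rw [hAd]
    refine lt_of_le_of_lt (natDegree_C_mul_le _ _) ?_
    rw [hB]
    omega
  constructor
  · exact hA.sub_of_left (degree_lt_degree hB')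
  · unfold pG
    rw [natDegree_sub_eq_left_of_natDegree_lt hB', hAd]

theorem pG_eval {R : Type} [CommRing R] (r N : ℕ) (z c : R) : (pG r N z).eval c =
    c * ∏ i ∈ Finset.range (r - 1), (c - z ^ i) -
      2 ^ N * ∏ j ∈ Finset.range (r - 1), (c - z ^ (r - 1 + j)) := by
  unfold pG
  simp only [eval_sub, eval_mul, eval_prod, eval_X, eval_C]

theorem pG_aeval {R A : Type} [CommRing R] [CommRing A] [Algebra R A] (r N : ℕ) (z : R) (x : A) :
    aeval x (pG r N z) =
      x * ∏ i ∈ Finset.range (r - 1), (x - algebraMap R A z ^ i) -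
        2 ^ N * ∏ j ∈ Finset.range (r - 1), (x - algebraMap R A z ^ (r - 1 + j)) := by
  unfold pG
  simp only [map_sub, map_mul, map_prod, aeval_X, aeval_C, map_pow, map_ofNat]

section pt

variable {L : Type} [Field L] [CharZero L] {r N : ℕ} (hr : 2 ≤ r) {z x : L}
  (hz : IsPrimitiveRoot z (2 * r - 2))
  (hx : x * ∏ i ∈ Finset.range (r - 1), (x - z ^ i) =
    2 ^ N * ∏ j ∈ Finset.range (r - 1), (x - z ^ (r - 1 + j)))

include hr hz

theorem z_int : IsIntegral ℤ z := hz.isIntegral (by omega)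

theorem su_z (S : Finset ℕ) : SU S z := by
  have h1 : IsIntegral ℤ z⁻¹ := hz.inv.isIntegral (by omega)
  refine ⟨hz.ne_zero (by omega), 0, ?_, ?_⟩
  · simpa using z_int hr hz
  · simpa using h1

theorem su_zpow (S : Finset ℕ) (a : ℕ) : SU S (z ^ a) := by
  induction a with
  | zero => rw [pow_zero]; exact su_one S
  | succ a ih => rw [pow_succ]; exact su_mul ih (su_z hr hz S)

theorem su_one_sub (n : ℕ) (hn : z ^ n ≠ 1) : SU (Sr r) (1 - z ^ n) := by
  have h1 : z ^ n = z ^ (n % (2 * r - 2)) := pow_eq_pow_mod n hz.pow_eq_one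
  have hlt : n % (2 * r - 2) < 2 * r - 2 := Nat.mod_lt _ (by omega)
  rw [h1] at hn ⊢
  generalize n % (2 * r - 2) = j at hn hlt ⊢
  have hj : j ≠ 0 := by
    rintro rfl
    exact hn (pow_zero z)
  have hz' : IsPrimitiveRoot z ((2 * r - 3) + 1) := by
    have e : 2 * r - 3 + 1 = 2 * r - 2 := by omega
    rw [e]
    exact hz
  have h2 := hz'.prod_one_sub_pow_eq_order
  rw [← Finset.mul_prod_erase _ _ (Finset.mem_range.2 (show j - 1 < 2 * r - 3 by omega))] at h2
  have e2 : j - 1 + 1 = j := by omega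
  rw [e2] at h2
  refine su_of_mul (b := ∏ i ∈ (Finset.range (2 * r - 3)).erase (j - 1), (1 - z ^ (i + 1)))
    (isIntegral_one.sub ((z_int hr hz).pow j))
    (IsIntegral.prod _ fun i _ => isIntegral_one.sub ((z_int hr hz).pow (i + 1))) ?_
  have h3 := su_nat (L := L) r (2 * r - 3 + 1) (by omega) (by omega)
  refine su_congr h3 ?_
  rw [h2]
  push_cast
  rfl

theorem su_sub (a b : ℕ) (h : z ^ a ≠ z ^ b) : SU (Sr r) (z ^ a - z ^ b) := by
  rcases le_total a b with hab | hab
  · obtain ⟨c, rfl⟩ := Nat.exists_eq_add_of_le hab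
    have h1 : z ^ c ≠ 1 := by
      intro h1
      apply h
      rw [pow_add, h1, mul_one]
    refine su_congr (su_mul (su_zpow hr hz _ a) (su_one_sub hr hz c h1)) ?_
    rw [pow_add]
    ring
  · obtain ⟨c, rfl⟩ := Nat.exists_eq_add_of_le hab
    have h1 : z ^ c ≠ 1 := by
      intro h1
      apply h
      rw [pow_add, h1, mul_one]
    refine su_congr (su_neg (su_mul (su_zpow hr hz _ b) (su_one_sub hr hz c h1))) ?_
    rw [pow_add]
    ring

include hx

theorem x_int : IsIntegral ℤ x := by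
  have h1 : IsIntegral (integralClosure ℤ L) x := by
    refine ⟨pG r N (⟨z, z_int hr hz⟩ : integralClosure ℤ L), (pG_deg hr N _).1, ?_⟩
    have h2 := pG_aeval r N (⟨z, z_int hr hz⟩ : integralClosure ℤ L) x
    rw [aeval_def] at h2
    rw [h2]
    exact sub_eq_zero.2 hx
  exact isIntegral_trans (A := integralClosure ℤ L) x h1

theorem su_x_sub (c : L) (hci : IsIntegral ℤ c)
    (hc : SU (Sr r) (c * ∏ i ∈ Finset.range (r - 1), (c - z ^ i) -
      2 ^ N * ∏ j ∈ Finset.range (r - 1), (c - z ^ (r - 1 + j)))) : SU (Sr r) (x - c) := by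
  have hxi := x_int hr hz hx
  obtain ⟨y, hy⟩ := sub_dvd_eval_sub (⟨x, hxi⟩ : integralClosure ℤ L) ⟨c, hci⟩
    (pG r N (⟨z, z_int hr hz⟩ : integralClosure ℤ L))
  rw [pG_eval, pG_eval] at hy
  have h1 := congrArg (algebraMap (integralClosure ℤ L) L) hy
  simp only [map_sub, map_mul, map_prod, map_pow, map_ofNat] at h1
  have h2 : (x * ∏ i ∈ Finset.range (r - 1), (x - z ^ i) -
      2 ^ N * ∏ j ∈ Finset.range (r - 1), (x - z ^ (r - 1 + j))) -
      (c * ∏ i ∈ Finset.range (r - 1), (c - z ^ i) -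
      2 ^ N * ∏ j ∈ Finset.range (r - 1), (c - z ^ (r - 1 + j))) = (x - c) * (y : L) := h1
  rw [hx, sub_self, zero_sub] at h2
  refine su_of_mul (hxi.sub hci) y.2 ?_
  rw [← h2]
  exact su_neg hc

theorem su_two_pow : SU (Sr r) ((2 : L) ^ N) := by
  have h3 : SU (Sr r) ((2 : ℕ) : L) := su_nat r 2 (by norm_num) (by omega)
  have h4 : SU (Sr r) (∏ _i ∈ Finset.range N, ((2 : ℕ) : L)) := su_prod _ _ fun i _ => h3
  rw [Finset.prod_const, Finset.card_range] at h4
  exact_mod_cast h4

theorem su_x : SU (Sr r) x := by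
  have h1 := su_x_sub hr hz hx 0 isIntegral_zero (by
    rw [zero_mul, zero_sub]
    refine su_neg (su_mul (su_two_pow hr hz hx) (su_prod _ _ fun j _ => ?_))
    rw [zero_sub]
    exact su_neg (su_zpow hr hz _ _))
  exact su_congr h1 (by ring)

theorem su_x_zpow (n : ℕ) : SU (Sr r) (x - z ^ n) := by
  have h1 : z ^ n = z ^ (n % (2 * r - 2)) := pow_eq_pow_mod n hz.pow_eq_one
  have hlt : n % (2 * r - 2) < 2 * r - 2 := Nat.mod_lt _ (by omega)
  rw [h1]
  generalize n % (2 * r - 2) = j at hlt ⊢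
  refine su_x_sub hr hz hx _ ((z_int hr hz).pow j) ?_
  by_cases hj : j < r - 1
  · have h0 : ∏ i ∈ Finset.range (r - 1), (z ^ j - z ^ i) = 0 :=
      Finset.prod_eq_zero (Finset.mem_range.2 hj) (sub_self _)
    rw [h0, mul_zero, zero_sub]
    refine su_neg (su_mul (su_two_pow hr hz hx) (su_prod _ _ fun i hi => ?_))
    rw [Finset.mem_range] at hi
    refine su_sub hr hz _ _ fun h => ?_
    have := hz.pow_inj (by omega) (by omega) h
    omega
  · have h0 : ∏ i ∈ Finset.range (r - 1), (z ^ j - z ^ (r - 1 + i)) = 0 := by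
      refine Finset.prod_eq_zero (i := j - (r - 1)) (Finset.mem_range.2 (by omega)) ?_
      have e : r - 1 + (j - (r - 1)) = j := by omega
      rw [e, sub_self]
    rw [h0, mul_zero, sub_zero]
    refine su_mul (su_zpow hr hz _ _) (su_prod _ _ fun i hi => ?_)
    rw [Finset.mem_range] at hi
    refine su_sub hr hz _ _ fun h => ?_
    have := hz.pow_inj (by omega) (by omega) h
    omega

omit hr hz hx in
/-- the coordinates -/
noncomputable def yy (r : ℕ) (z x : L) (l : ℕ) : L :=
  if l = 1 then 0 else if l < 2 * r then z ^ (l - 2) else z ^ (l - 2) * x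

theorem su_yy {l l' : ℕ} (h1 : 1 ≤ l) (hl : l < l') (h2 : l' < 4 * r - 2) :
    SU (Sr r) (yy r z x l - yy r z x l') := by
  have e' : yy r z x l' = if l' < 2 * r then z ^ (l' - 2) else z ^ (l' - 2) * x := by
    unfold yy
    rw [if_neg (by omega)]
  rw [e']
  by_cases hl1 : l = 1
  · have e : yy r z x l = 0 := by
      unfold yy
      rw [if_pos hl1]
    rw [e, zero_sub]
    split_ifs
    · exact su_neg (su_zpow hr hz _ _)
    · exact su_neg (su_mul (su_zpow hr hz _ _) (su_x hr hz hx))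
  · have e : yy r z x l = if l < 2 * r then z ^ (l - 2) else z ^ (l - 2) * x := by
      unfold yy
      rw [if_neg hl1]
    rw [e]
    by_cases h3 : l' < 2 * r
    · rw [if_pos h3, if_pos (by omega)]
      refine su_sub hr hz _ _ fun h => ?_
      have := hz.pow_inj (by omega) (by omega) h
      omega
    · rw [if_neg h3]
      by_cases h4 : l < 2 * r
      · rw [if_pos h4]
        have h5 := su_x_zpow hr hz hx ((l - 2) + (2 * (2 * r - 2) - (l' - 2)))
        refine su_congr (su_neg (su_mul (su_zpow hr hz _ (l' - 2)) h5)) ?_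
        have h6 : z ^ (l' - 2) * z ^ ((l - 2) + (2 * (2 * r - 2) - (l' - 2))) = z ^ (l - 2) := by
          rw [← pow_add]
          have e6 : l' - 2 + (l - 2 + (2 * (2 * r - 2) - (l' - 2))) =
              (2 * r - 2) * 2 + (l - 2) := by omega
          rw [e6, pow_add, pow_mul, hz.pow_eq_one, one_pow, one_mul]
        rw [mul_sub, h6]
        ring
      · rw [if_neg h4]
        have h5 : z ^ (l - 2) ≠ z ^ (l' - 2) := by
          have e7 : ∀ t : ℕ, 2 * r ≤ t → z ^ (t - 2) = z ^ (t - 2 * r) := by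
            intro t ht
            have e8 : t - 2 = (2 * r - 2) + (t - 2 * r) := by omega
            rw [e8, pow_add, hz.pow_eq_one, one_mul]
          rw [e7 l (by omega), e7 l' (by omega)]
          intro h
          have := hz.pow_inj (by omega) (by omega) h
          omega
        refine su_congr (su_mul (su_sub hr hz _ _ h5) (su_x hr hz hx)) ?_
        ring

omit hr hz hx in
/-- the points -/
noncomputable def pts (r : ℕ) (z x : L) (i : Fin (4 * r - 2)) : Fin 2 → L :=
  if (i : ℕ) = 0 then ![1, 0] else ![yy r z x i, 1]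

theorem su_pts (i j : Fin (4 * r - 2)) (hij : i ≠ j) :
    SU (Sr r) (dt (pts r z x i) (pts r z x j)) := by
  have hi := i.2
  have hj := j.2
  have hij' : (i : ℕ) ≠ j := fun h => hij (Fin.ext h)
  unfold pts dt
  by_cases hi0 : (i : ℕ) = 0
  · have hj0 : (j : ℕ) ≠ 0 := fun h => hij' (by rw [hi0, h])
    rw [if_pos hi0, if_neg hj0]
    exact su_congr (su_one _) (by simp)
  · rw [if_neg hi0]
    by_cases hj0 : (j : ℕ) = 0
    · rw [if_pos hj0]
      exact su_congr (su_neg (su_one _)) (by simp)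
    · rw [if_neg hj0]
      rcases Nat.lt_or_gt_of_ne hij' with h | h
      · exact su_congr (su_yy hr hz hx (by omega) h hj) (by simp)
      · exact su_congr (su_neg (su_yy hr hz hx (by omega) h hi)) (by simp)

theorem ip_pts : IP (Sr r) (pts r z x) := by
  refine ⟨fun i j hij => (su_pts hr hz hx i j hij).1, fun g hg => ?_⟩
  have hne : ∀ a b : Fin 4, a ≠ b → g a ≠ g b := fun a b hab h => hab (hg h)
  unfold cr
  rw [div_eq_mul_inv]
  exact su_mul (su_mul (su_pts hr hz hx _ _ (hne 0 1 (by decide)))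
    (su_pts hr hz hx _ _ (hne 2 3 (by decide))))
    (su_inv (su_mul (su_pts hr hz hx _ _ (hne 0 2 (by decide)))
      (su_pts hr hz hx _ _ (hne 1 3 (by decide)))))

omit hx in
theorem cr_val : cr (pts r z x) ⟨0, by omega⟩ ⟨2 * r, by omega⟩ ⟨1, by omega⟩ ⟨2, by omega⟩ =
    -(x - 1)⁻¹ := by
  have e0 : pts r z x ⟨0, by omega⟩ = ![1, 0] := by simp [pts]
  have e1 : pts r z x ⟨2 * r, by omega⟩ = ![x, 1] := by
    unfold pts yy
    rw [if_neg (by simp; omega), if_neg (by simp), if_neg (by simp), hz.pow_eq_one, one_mul]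
  have e2 : pts r z x ⟨1, by omega⟩ = ![0, 1] := by
    unfold pts yy
    rw [if_neg (by simp), if_pos rfl]
  have e3 : pts r z x ⟨2, by omega⟩ = ![1, 1] := by
    unfold pts yy
    rw [if_neg (by simp), if_neg (by simp), if_pos (by simp; omega)]
    simp
  unfold cr
  rw [e0, e1, e2, e3]
  unfold dt
  simp only [Matrix.cons_val_zero, Matrix.cons_val_one]
  have h1 : (1 * 1 - 0 * x : L) * (0 * 1 - 1 * 1) = -1 := by ring
  have h2 : (1 * 1 - 0 * 0 : L) * (x * 1 - 1 * 1) = x - 1 := by ring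
  rw [h1, h2, neg_div, one_div]

end pt

theorem low_aux (k : Type) [Field k] [NumberField k] {r : ℕ} (hr : 2 ≤ r) (ζ : k)
    (hζ : IsPrimitiveRoot ζ (2 * r - 2)) : (Ps k r (4 * r - 2) (Sr r)).Infinite := by
  have hψ : Nonempty (k →+* ℂ) := inferInstance
  obtain ⟨ψ⟩ := hψ
  have hex := fun N : ℕ => exists_root' k ψ (pG r N ζ) (pG_deg hr N ζ).1 (by
    rw [(pG_deg hr N ζ).2]; omega)
  choose L iF iN iA x φ hL hx hφ using hex
  have hz : ∀ N, IsPrimitiveRoot (algebraMap k (L N) ζ) (2 * r - 2) := fun N =>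
    hζ.map_of_injective (algebraMap k (L N)).injective
  have hx' : ∀ N, x N * ∏ i ∈ Finset.range (r - 1), (x N - algebraMap k (L N) ζ ^ i) =
      2 ^ N * ∏ j ∈ Finset.range (r - 1), (x N - algebraMap k (L N) ζ ^ (r - 1 + j)) := by
    intro N
    have h4 := hx N
    rw [pG_aeval] at h4
    exact sub_eq_zero.1 h4
  refine Set.infinite_of_injective_forall_mem
    (f := fun N => fun i j l m => φ N (cr (pts r (algebraMap k (L N) ζ) (x N)) i j l m)) ?_ ?_
  · intro N N' hNN
    have h1 : φ N (x N) = φ N' (x N') := by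
      have h2 := congrFun (congrFun (congrFun (congrFun hNN ⟨0, by omega⟩) ⟨2 * r, by omega⟩)
        ⟨1, by omega⟩) ⟨2, by omega⟩
      simp only [cr_val hr (hz N), cr_val hr (hz N'), map_neg, map_inv₀, map_sub, map_one] at h2
      have h3 := inv_injective (neg_injective h2)
      exact sub_left_injective h3
    have hmap : ∀ N, φ N (x N) * ∏ i ∈ Finset.range (r - 1), (φ N (x N) - ψ ζ ^ i) =
        2 ^ N * ∏ j ∈ Finset.range (r - 1), (φ N (x N) - ψ ζ ^ (r - 1 + j)) := by
      intro N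
      have h5 := congrArg (φ N) (hx' N)
      rw [map_mul, map_prod, map_mul, map_prod, map_pow, map_ofNat (φ N) 2] at h5
      simpa [hφ] using h5
    have hne : ∏ j ∈ Finset.range (r - 1), (φ N (x N) - ψ ζ ^ (r - 1 + j)) ≠ 0 := by
      rw [Finset.prod_ne_zero_iff]
      intro j hj hcon
      have h6 := (su_x_zpow hr (hz N) (hx' N) (r - 1 + j)).1
      apply h6
      apply (φ N).injective
      rw [map_sub, map_zero, ← hcon, map_pow, hφ]
    have e1 := hmap N
    have e2 := hmap N'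
    rw [← h1] at e2
    have e3 := mul_right_cancel₀ hne (e1.symm.trans e2)
    have h6 : ((2 ^ N : ℕ) : ℂ) = ((2 ^ N' : ℕ) : ℂ) := by
      push_cast
      exact e3
    exact Nat.pow_right_injective le_rfl (Nat.cast_injective h6)
  · intro N
    exact ⟨L N, iF N, iN N, iA N, _, φ N, (hL N).trans_eq (pG_deg hr N ζ).2,
      ip_pts hr (hz N) (hx' N), rfl⟩

theorem lowb : LowbStmt := by
  intro r hr
  have hne : NeZero (2 * r - 2) := ⟨by omega⟩
  have hne' : NeZero (((2 * r - 2 : ℕ) : ℕ) : ℚ) := NeZero.charZero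
  have hce : IsCyclotomicExtension {2 * r - 2} ℚ (CyclotomicField (2 * r - 2) ℚ) :=
    CyclotomicField.isCyclotomicExtension _ _
  have hnf : NumberField (CyclotomicField (2 * r - 2) ℚ) :=
    IsCyclotomicExtension.numberField {2 * r - 2} ℚ _
  have hζ := IsCyclotomicExtension.zeta_spec (2 * r - 2) ℚ (CyclotomicField (2 * r - 2) ℚ)
  exact ⟨CyclotomicField (2 * r - 2) ℚ, inferInstance, hnf, Sr r,
    fun p hp => (Finset.mem_filter.1 hp).2, low_aux _ hr _ hζ⟩

end Pool.Agent.Y734.R.LOWB
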